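import Pool.Agent.EVN.W.Main
import Pool.Agent.PLY.Main

/-!
Project EVN, block W: the contract.
-/

namespace Pool.Agent.EVN

open Pool.Agent.HEP

theorem w_main : WMain := w_main_of full_hsI

end Pool.Agent.EVN
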