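import Mathlib

/-!
Project EVN, block W: sums of products of two decreasing sequences.

`conv_shift`: for `x = s - g'`, `y = T + s - g` the difference `y - x` is constant in `s`: if it is `≥ 0` then `α y ≤ α x`, otherwise
`b x ≤ b y`; so each term is at most `b u * α u` with `u = min x y ≤ M`, injective in `s`.
-/

namespace Pool.Agent.EVN

open scoped ENNReal

theorem conv_shift {b α : ℕ → ℝ≥0∞} (hb : Antitone b) (hα : Antitone α) (I : Finset ℕ) (g' g T M : ℕ)
    (hI : ∀ s ∈ I, s ≤ M) :
    ∑ s ∈ I, (if g' ≤ s ∧ g ≤ T + s then b (s - g') * α (T + s - g) else 0) ≤ ∑ y ∈ Finset.range (M + 1), b y * α y := by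
  rw [← Finset.sum_filter]
  have h1 : ∀ s ∈ I.filter (fun s => g' ≤ s ∧ g ≤ T + s), b (s - g') * α (T + s - g) ≤
      (fun y => b y * α y) (min (s - g') (T + s - g)) := by
    intro s hs
    rw [Finset.mem_filter] at hs
    rcases le_total (s - g') (T + s - g) with h | h
    · simp only [min_eq_left h]
      exact mul_le_mul' le_rfl (hα h)
    · simp only [min_eq_right h]
      exact mul_le_mul' (hb h) le_rfl
  refine (Finset.sum_le_sum h1).trans ?_
  have hinj : Set.InjOn (fun s => min (s - g') (T + s - g)) (I.filter (fun s => g' ≤ s ∧ g ≤ T + s) : Finset ℕ) := by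
    intro s hs t ht e
    simp only [Finset.coe_filter, Set.mem_setOf_eq] at hs ht
    simp only at e
    omega
  rw [← Finset.sum_image (f := fun y => b y * α y) hinj]
  refine Finset.sum_le_sum_of_subset ?_
  intro y hy
  rw [Finset.mem_image] at hy
  obtain ⟨s, hs, rfl⟩ := hy
  rw [Finset.mem_filter] at hs
  have := hI s hs.1
  rw [Finset.mem_range]
  omega

theorem conv_U {b : ℕ → ℝ≥0∞} (I : Finset ℕ) (g' M : ℕ) (hI : ∀ s ∈ I, s ≤ M) :
    ∑ s ∈ I, (if g' ≤ s then b (s - g') else 0) ≤ ∑ y ∈ Finset.range (M + 1), b y := by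
  rw [← Finset.sum_filter]
  have hinj : Set.InjOn (fun s => s - g') (I.filter (fun s => g' ≤ s) : Finset ℕ) := by
    intro s hs t ht e
    simp only [Finset.coe_filter, Set.mem_setOf_eq] at hs ht
    simp only at e
    omega
  rw [← Finset.sum_image (f := b) hinj]
  refine Finset.sum_le_sum_of_subset ?_
  intro y hy
  rw [Finset.mem_image] at hy
  obtain ⟨s, hs, rfl⟩ := hy
  rw [Finset.mem_filter] at hs
  have := hI s hs.1
  rw [Finset.mem_range]
  omega

end Pool.Agent.EVN
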