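import Pool.Agent.EVN.Defs

/-!
Project EVN, block W: the functional `er` and the relation `QB`.

PROOFS. `rvl (κ1 ++ κ2) = rvl κ2 ++ rvl κ1`, so `VL (rvl κ2) ⊆ VL (rvl (κ1 ++ κ2))` and `av` is decreasing in the set.
`sum_er`: `rvl` is an involution of the words (`rvB (rvB c) = c`) which keeps `hj`, `wj`, `ln` (`rvB` keeps height and length, see
BEX/F/Rvb: `rvb_br`, and BEX/F/UpF for `rvB`). `QB_pre`: `jn l0` is a prefix of `jn (l0 ++ l1)` (`jn_append`), its vertices are vertices of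
the longer path (`GDef`/`GSys`); the empty cases by hand.
-/

namespace Pool.Agent.EVN

open Pool.Agent.Hhelper14.SAW Pool.Agent.HHP Pool.Agent.HEP Pool.Agent.PLY.G Pool.Agent.BEX.F
open scoped ENNReal

theorem av_anti (𝓛 : Law) {S T : Set (ℤ × ℤ)} (h : S ⊆ T) : 𝓛.av T ≤ 𝓛.av S := by
  unfold Law.av
  refine Finset.sum_le_sum fun ω _ => ?_
  gcongr
  exact ind_mono fun h1 z hz hS => h1 z hz (h hS)

theorem av_le_oneW (𝓛 : Law) (S : Set (ℤ × ℤ)) : 𝓛.av S ≤ 1 := by
  rw [← 𝓛.tot]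
  unfold Law.av
  refine Finset.sum_le_sum fun ω _ => ?_
  calc 𝓛.p ω * ind (∀ z ∈ ω, z ∉ S) ≤ 𝓛.p ω * 1 := by
        gcongr
        exact ind_le_one _
    _ = 𝓛.p ω := mul_one _

theorem ln_append (l m : List Blk) : ln (l ++ m) = ln l + ln m := by
  simp [ln]

private theorem Er_VL_left (l m : List Blk) : VL l ⊆ VL (l ++ m) := by
  rintro z ⟨l1, c, l2, u, rfl, hu, rfl⟩
  exact ⟨l1, c, l2 ++ m, u, by simp, hu, rfl⟩

private theorem Er_rvl_append (κ1 κ2 : List Blk) : rvl (κ1 ++ κ2) = rvl κ2 ++ rvl κ1 := by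
  unfold rvl
  rw [List.map_append, List.reverse_append]

theorem er_append (𝓛 : Law) (κ1 κ2 : List Blk) : er 𝓛 (κ1 ++ κ2) ≤ er 𝓛 κ2 := by
  unfold er
  rw [Er_rvl_append]
  exact av_anti 𝓛 (Er_VL_left _ _)

theorem er_le_one (𝓛 : Law) (κ : List Blk) : er 𝓛 κ ≤ 1 := av_le_oneW 𝓛 _

private theorem Er_rvl_rvl (l : List Blk) : rvl (rvl l) = l := by
  unfold rvl
  rw [List.map_reverse, List.reverse_reverse, List.map_map]
  have h : rvB ∘ rvB = id := funext rvB_rvB
  rw [h, List.map_id]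

private theorem Er_hj_rvl (l : List Blk) : hj (rvl l) = hj l := by
  unfold hj rvl
  rw [List.map_reverse, List.sum_reverse, List.map_map]
  congr 1
  exact List.map_congr_left fun c _ => htw_rvB c

private theorem Er_ln_rvl (l : List Blk) : ln (rvl l) = ln l := by
  unfold ln rvl
  rw [List.map_reverse, List.sum_reverse, List.map_map]
  congr 1
  exact List.map_congr_left fun c _ => by
    simp only [Function.comp_apply]
    rw [len_rvB]

private theorem Er_wj_rvl (l : List Blk) : wj (rvl l) = wj l := by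
  unfold wj rvl
  rw [List.map_reverse, List.prod_reverse, List.map_map]
  congr 1
  exact List.map_congr_left fun c _ => by
    simp only [Function.comp_apply]
    rw [len_rvB]

theorem sum_er (𝓛 : Law) (L k : ℕ) :
    ∑' κ : List Blk, ind (hj κ = k ∧ ln κ ≤ L) * (wj κ * er 𝓛 κ) = ak 𝓛 L k := by
  have hinv : Function.Involutive (rvl : List Blk → List Blk) := Er_rvl_rvl
  unfold ak
  rw [← hinv.toPerm.tsum_eq fun l : List Blk => ind (hj l = k ∧ ln l ≤ L) * (wj l * 𝓛.av (VL l))]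
  refine tsum_congr fun κ => ?_
  simp only [Function.Involutive.coe_toPerm]
  rw [Er_hj_rvl, Er_ln_rvl, Er_wj_rvl]
  rfl

private theorem Er_V_pre {l0 l1 : List Blk} (h0 : l0 ≠ []) {z : ℤ × ℤ} (hz : z ∈ V (jn l0)) : z ∈ V (jn (l0 ++ l1)) := by
  by_cases h1 : l1 = []
  · rw [h1, List.append_nil]
    exact hz
  · rw [jn_append h0 h1, (app_right (jn_Br h0).tn_rt).1]
    exact List.mem_append_left _ hz

theorem QB_pre {l0 l1 κ0 κ1 : List Blk} (h : QB (l0 ++ l1) (κ0 ++ κ1)) : QB l0 κ0 := by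
  by_cases hl : l0 = []
  · exact Or.inl hl
  by_cases hk : κ0 = []
  · exact Or.inr (Or.inl hk)
  rcases h with h | h | h
  · exact absurd (List.append_eq_nil_iff.1 h).1 hl
  · exact absurd (List.append_eq_nil_iff.1 h).1 hk
  · exact Or.inr (Or.inr fun z h1 h2 => h z (Er_V_pre hl h1) (Er_V_pre hk h2))

end Pool.Agent.EVN
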