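import Pool.Agent.HEP.RnCut
import Pool.Agent.PLY.G.RunA

/-!
Project EVN, block W: cutting of words at their first renewal `≥ N`.

PROOF. Every word `l` with `N ≤ h l` is `l0 ++ l1` with exactly one `l0` in `fpw N` (`l0` = shortest prefix of height `≥ N`), and
`N ≤ h l0 ≤ h (l0 ++ l1)`. For `N = 0` only `l0 = []`.
-/

namespace Pool.Agent.EVN

open Pool.Agent.HEP
open scoped ENNReal

variable (A : Alph)

theorem tsum_fp (N : ℕ) (F : List A.B → ℝ≥0∞) :
    ∑' l, ind (N ≤ A.h l) * F l = ∑' l0, ind (A.fpw N l0) * ∑' l1, F (l0 ++ l1) := by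
  induction N using Nat.strong_induction_on generalizing F with
  | _ N ih =>
    by_cases h0 : N = 0
    · subst h0
      have hR : ∑' l0, ind (A.fpw 0 l0) * ∑' l1, F (l0 ++ l1) = ∑' l1, F l1 := by
        rw [tsum_eq_single ([] : List A.B)]
        · rw [ind_true ((A.fpw_nil).2 rfl), one_mul]
          rfl
        · intro l hl
          obtain ⟨c, r, rfl⟩ := List.exists_cons_of_ne_nil hl
          rw [ind_false, zero_mul]
          rw [A.fpw_cons]
          rintro ⟨h1, -⟩
          omega
      rw [hR]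
      refine tsum_congr fun l => ?_
      rw [ind_true (Nat.zero_le _), one_mul]
    · rw [Alph.tsum_list (fun l => ind (N ≤ A.h l) * F l),
        Alph.tsum_list (fun l0 => ind (A.fpw N l0) * ∑' l1, F (l0 ++ l1))]
      have e1 : ind (N ≤ A.h []) = 0 := ind_false (by rw [A.h_nil]; omega)
      have e2 : ind (A.fpw N []) = 0 := ind_false (by rw [A.fpw_nil]; exact h0)
      rw [e1, e2, zero_mul, zero_add, zero_mul, zero_add]
      refine tsum_congr fun c => ?_
      have hc := A.ht_pos c
      have h1 := ih (N - A.ht c) (by omega) (fun l => F (c :: l))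
      have h2 : ∀ l, ind (N ≤ A.h (c :: l)) = ind (N - A.ht c ≤ A.h l) := fun l =>
        ind_congr (by rw [A.h_cons]; omega)
      have h3 : ∀ l, ind (A.fpw N (c :: l)) = ind (A.fpw (N - A.ht c) l) := fun l =>
        ind_congr (by rw [A.fpw_cons]; exact ⟨fun h => h.2, fun h => ⟨by omega, h⟩⟩)
      simp only [h2, h3]
      exact h1

/-- A word of `fpw N` (`N ≥ 1`): the last block passes the level `N`. -/
theorem tsum_fpw_last {N : ℕ} (hN : 1 ≤ N) (F : List A.B → ℝ≥0∞) :
    ∑' l, ind (A.fpw N l) * F l = ∑' l', ∑' c, ind (A.h l' < N ∧ N ≤ A.h l' + A.ht c) * F (l' ++ [c]) := by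
  induction N using Nat.strong_induction_on generalizing F with
  | _ N ih =>
    rw [Alph.tsum_list (fun l => ind (A.fpw N l) * F l),
      Alph.tsum_list (fun l' => ∑' c, ind (A.h l' < N ∧ N ≤ A.h l' + A.ht c) * F (l' ++ [c]))]
    have e2 : ind (A.fpw N []) = 0 := ind_false (by rw [A.fpw_nil]; omega)
    rw [e2, zero_mul, zero_add]
    have h3 : ∀ c l, ind (A.fpw N (c :: l)) = ind (A.fpw (N - A.ht c) l) := fun c l =>
      ind_congr (by rw [A.fpw_cons]; exact ⟨fun h => h.2, fun h => ⟨by omega, h⟩⟩)
    rw [← ENNReal.tsum_add]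
    refine tsum_congr fun c => ?_
    have hc := A.ht_pos c
    simp only [h3]
    by_cases hcN : N ≤ A.ht c
    · have e : N - A.ht c = 0 := by omega
      have e3 : ind (A.h [] < N ∧ N ≤ A.h [] + A.ht c) = 1 := ind_true (by rw [A.h_nil]; omega)
      rw [e, e3, one_mul]
      have hR : ∑' l, ind (A.fpw 0 l) * F (c :: l) = F [c] := by
        rw [tsum_eq_single ([] : List A.B)]
        · rw [ind_true ((A.fpw_nil).2 rfl), one_mul]
        · intro l hl
          obtain ⟨c', r, rfl⟩ := List.exists_cons_of_ne_nil hl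
          rw [ind_false, zero_mul]
          rw [A.fpw_cons]
          rintro ⟨h1, -⟩
          omega
      rw [hR]
      have h0 : ∑' l, ∑' c', ind (A.h (c :: l) < N ∧ N ≤ A.h (c :: l) + A.ht c') * F (c :: l ++ [c']) = 0 := by
        rw [ENNReal.tsum_eq_zero]
        intro l
        rw [ENNReal.tsum_eq_zero]
        intro c'
        rw [ind_false, zero_mul]
        rw [A.h_cons]
        omega
      rw [h0, add_zero]
      rfl
    · have e3 : ind (A.h [] < N ∧ N ≤ A.h [] + A.ht c) = 0 := ind_false (by rw [A.h_nil]; omega)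
      rw [e3, zero_mul, zero_add]
      rw [ih (N - A.ht c) (by omega) (by omega) (fun l => F (c :: l))]
      refine tsum_congr fun l => tsum_congr fun c' => ?_
      rw [List.cons_append]
      congr 1
      exact ind_congr (by rw [A.h_cons]; omega)

end Pool.Agent.EVN
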