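import Pool.Agent.EVN.Defs
import Pool.Agent.EVN.W.Fp
import Pool.Agent.EVN.W.Er
import Pool.Agent.BEX.F.UpF

/-!
Project EVN, block W: masses of pairs of stopped words from one vertex.

PROOFS. (1) `st_pb`: `StB N` is `fpw N` for `N ≥ 1`, so the sum is `PB N ≤ 2 x⁻² fa (N-1)` (`pb_fa`), `fa i * U i ≤ K`
(hypothesis `hfa`; it is `full_hsI` of PLY/Main, not imported here: long build), `U N ≤ 2 U (N-1)`.
(2) `st_mid`: sum over `κ` with `hj κ < N` (`N ≤ 2^k`), `l` in `fpw N`: `κ = []` gives at most 1 (`tsum_fpw`); for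
`2^i ≤ hj κ < 2^(i+1)`, `i < k`: `l = l0 ++ l1` with `l0` in `fpw (2^i)` when `2^i ≤ N` (`RunA_split`; the mass of the `l1` is `1`),
`κ = κ0 ++ κ1` with `κ0` in `fpw (2^i)` (`tsum_fp`), `hj κ1 ≤ 2^(i+1)`, mass at most
`U (2^(i+1)) ≤ 2 U (2^i)`; `QB l0 κ0` by `QB_pre`; total at most `2 C` by (1). This is `Stp_dy`, for any alphabet.
(3) `st_big`: the last block `c` of `κ = κ' ++ [c]` has height `> X`, mass `Lam X ≤ (U X)⁻¹` (`Lam_le_div`), and `QB l κ'`.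
-/

namespace Pool.Agent.EVN

open Pool.Agent.Hhelper14.SAW Pool.Agent.HHP Pool.Agent.HEP Pool.Agent.PLY.G Pool.Agent.BEX.F
open scoped ENNReal

private lemma Stp_U {A : Alph} (hA : Antitone A.b) (M : ℕ) : A.U (2 * M) ≤ 2 * A.U M := by
  have h1 : ∀ j : ℕ, A.U (M + j) ≤ A.U M + ∑ i ∈ Finset.range j, A.b i := by
    intro j
    induction j with
    | zero => simp
    | succ j ih =>
      rw [← add_assoc, A.U_succ, Finset.sum_range_succ, ← add_assoc]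
      exact add_le_add ih (hA (by omega))
  calc A.U (2 * M) = A.U (M + M) := by rw [two_mul]
    _ ≤ A.U M + ∑ i ∈ Finset.range M, A.b i := h1 M
    _ ≤ A.U M + A.U M := by
        refine add_le_add le_rfl ?_
        unfold Alph.U
        exact Finset.sum_le_sum_of_subset (Finset.range_subset_range.2 (Nat.le_succ M))
    _ = 2 * A.U M := (two_mul _).symm

/-- One dyadic block of heights of the second word, any alphabet. -/
private lemma Stp_dy (A : Alph) (Q : List A.B → List A.B → Prop)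
    (hQ : ∀ l0 l1 κ0 κ1, Q (l0 ++ l1) (κ0 ++ κ1) → Q l0 κ0) {M N : ℕ} (hMN : M ≤ N) :
    ∑' l, ∑' κ, ind (A.fpw N l ∧ (M ≤ A.h κ ∧ A.h κ < 2 * M) ∧ Q l κ) * (A.w l * A.w κ) ≤
      A.U (2 * M) * ∑' l, ∑' κ, ind (A.fpw M l ∧ A.fpw M κ ∧ Q l κ) * (A.w l * A.w κ) := by
  calc ∑' l, ∑' κ, ind (A.fpw N l ∧ (M ≤ A.h κ ∧ A.h κ < 2 * M) ∧ Q l κ) * (A.w l * A.w κ)
      = ∑' l, ind (A.fpw N l) * (A.w l * ∑' κ, ind (M ≤ A.h κ) * (ind (A.h κ < 2 * M ∧ Q l κ) * A.w κ)) := by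
        refine tsum_congr fun l => ?_
        rw [← ENNReal.tsum_mul_left, ← ENNReal.tsum_mul_left]
        refine tsum_congr fun κ => ?_
        rw [ind_and, ind_and, ind_and, ind_and]
        ring
    _ = ∑' l0, ind (A.fpw M l0) * ∑' l1, ind (A.fpw (N - A.h l0) l1) * (A.w (l0 ++ l1) *
          ∑' κ0, ind (A.fpw M κ0) * ∑' κ1, ind (A.h (κ0 ++ κ1) < 2 * M ∧ Q (l0 ++ l1) (κ0 ++ κ1)) * A.w (κ0 ++ κ1)) := by
        rw [Alph.RunA_split hMN (fun l => A.w l * ∑' κ, ind (M ≤ A.h κ) * (ind (A.h κ < 2 * M ∧ Q l κ) * A.w κ))]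
        refine tsum_congr fun l0 => ?_
        congr 1
        refine tsum_congr fun l1 => ?_
        rw [tsum_fp A M (fun κ => ind (A.h κ < 2 * M ∧ Q (l0 ++ l1) κ) * A.w κ)]
    _ ≤ ∑' l0, ind (A.fpw M l0) * ∑' l1, (ind (A.fpw (N - A.h l0) l1) * A.w l1) * (A.w l0 *
          ∑' κ0, ind (A.fpw M κ0) * (ind (Q l0 κ0) * A.w κ0 * A.U (2 * M))) := by
        refine ENNReal.tsum_le_tsum fun l0 => mul_le_mul' le_rfl (ENNReal.tsum_le_tsum fun l1 => ?_)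
        rw [A.w_append]
        have h1 : ∑' κ0, ind (A.fpw M κ0) * ∑' κ1, ind (A.h (κ0 ++ κ1) < 2 * M ∧ Q (l0 ++ l1) (κ0 ++ κ1)) * A.w (κ0 ++ κ1) ≤
            ∑' κ0, ind (A.fpw M κ0) * (ind (Q l0 κ0) * A.w κ0 * A.U (2 * M)) := by
          refine ENNReal.tsum_le_tsum fun κ0 => mul_le_mul' le_rfl ?_
          rw [← A.tsum_le (2 * M), ← ENNReal.tsum_mul_left]
          refine ENNReal.tsum_le_tsum fun κ1 => ?_
          rw [A.w_append, A.h_append]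
          calc ind (A.h κ0 + A.h κ1 < 2 * M ∧ Q (l0 ++ l1) (κ0 ++ κ1)) * (A.w κ0 * A.w κ1)
              ≤ ind (Q l0 κ0 ∧ A.h κ1 ≤ 2 * M) * (A.w κ0 * A.w κ1) := by
                refine mul_le_mul' (ind_mono fun h => ⟨hQ _ _ _ _ h.2, by omega⟩) le_rfl
            _ = _ := by
                rw [ind_and]
                ring
        calc ind (A.fpw (N - A.h l0) l1) * (A.w l0 * A.w l1 *
              ∑' κ0, ind (A.fpw M κ0) * ∑' κ1, ind (A.h (κ0 ++ κ1) < 2 * M ∧ Q (l0 ++ l1) (κ0 ++ κ1)) * A.w (κ0 ++ κ1))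
            ≤ ind (A.fpw (N - A.h l0) l1) * (A.w l0 * A.w l1 *
              ∑' κ0, ind (A.fpw M κ0) * (ind (Q l0 κ0) * A.w κ0 * A.U (2 * M))) :=
              mul_le_mul' le_rfl (mul_le_mul' le_rfl h1)
          _ = _ := by ring
    _ = ∑' l0, ind (A.fpw M l0) * (A.w l0 *
          ∑' κ0, ind (A.fpw M κ0) * (ind (Q l0 κ0) * A.w κ0 * A.U (2 * M))) := by
        refine tsum_congr fun l0 => ?_
        rw [ENNReal.tsum_mul_right, Alph.tsum_fpw, one_mul]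
    _ = _ := by
        rw [← ENNReal.tsum_mul_left]
        refine tsum_congr fun l0 => ?_
        rw [← ENNReal.tsum_mul_left, ← ENNReal.tsum_mul_left, ← ENNReal.tsum_mul_left]
        refine tsum_congr fun κ0 => ?_
        rw [ind_and, ind_and]
        ring

/-- All heights of the second word below `N`, any alphabet. -/
private lemma Stp_mid (A : Alph) (hA : Antitone A.b) (Q : List A.B → List A.B → Prop)
    (hQ : ∀ l0 l1 κ0 κ1, Q (l0 ++ l1) (κ0 ++ κ1) → Q l0 κ0) {C : ℝ≥0∞}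
    (hC : ∀ N : ℕ, 1 ≤ N → (∑' l, ∑' κ, ind (A.fpw N l ∧ A.fpw N κ ∧ Q l κ) * (A.w l * A.w κ)) * A.U N ≤ C)
    {k N : ℕ} (hN : N ≤ 2 ^ k) :
    ∑' l, ∑' κ, ind (A.fpw N l ∧ A.h κ < N ∧ Q l κ) * (A.w l * A.w κ) ≤ 1 + k * (2 * C) := by
  have h1 : ∀ l κ : List A.B, ind (A.fpw N l ∧ A.h κ < N ∧ Q l κ) * (A.w l * A.w κ) ≤
      ind (κ = []) * (ind (A.fpw N l) * A.w l) + ∑ i ∈ Finset.range k, ind (2 ^ i ≤ N) *
        (ind (A.fpw N l ∧ (2 ^ i ≤ A.h κ ∧ A.h κ < 2 * 2 ^ i) ∧ Q l κ) * (A.w l * A.w κ)) := by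
    intro l κ
    by_cases h : A.fpw N l ∧ A.h κ < N ∧ Q l κ
    · rw [ind_true h, one_mul]
      by_cases hk : κ = []
      · subst hk
        refine le_trans ?_ le_self_add
        rw [ind_true rfl, ind_true h.1, one_mul, one_mul, A.w_nil, mul_one]
      · refine le_trans ?_ le_add_self
        have h0 : A.h κ ≠ 0 := fun e => hk (A.h_eq_zero.1 e)
        have h2 : 2 ^ Nat.log 2 (A.h κ) ≤ A.h κ := Nat.pow_log_le_self 2 h0
        have h3 : A.h κ < 2 ^ (Nat.log 2 (A.h κ) + 1) := Nat.lt_pow_succ_log_self (by norm_num) _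
        have h4 : Nat.log 2 (A.h κ) < k := by
          have : 2 ^ Nat.log 2 (A.h κ) < 2 ^ k := by
            have := h.2.1
            omega
          exact (Nat.pow_lt_pow_iff_right (by norm_num)).1 this
        refine le_trans ?_ (Finset.single_le_sum (f := fun i => ind (2 ^ i ≤ N) *
          (ind (A.fpw N l ∧ (2 ^ i ≤ A.h κ ∧ A.h κ < 2 * 2 ^ i) ∧ Q l κ) * (A.w l * A.w κ))) (fun _ _ => zero_le)
          (Finset.mem_range.2 h4))
        rw [ind_true (p := 2 ^ Nat.log 2 (A.h κ) ≤ N) (by have := h.2.1; omega), one_mul,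
          ind_true ⟨h.1, ⟨h2, by rw [pow_succ] at h3; omega⟩, h.2.2⟩, one_mul]
    · rw [ind_false h, zero_mul]
      exact zero_le
  calc ∑' l, ∑' κ, ind (A.fpw N l ∧ A.h κ < N ∧ Q l κ) * (A.w l * A.w κ)
      ≤ ∑' l, ∑' κ, (ind (κ = []) * (ind (A.fpw N l) * A.w l) + ∑ i ∈ Finset.range k, ind (2 ^ i ≤ N) *
        (ind (A.fpw N l ∧ (2 ^ i ≤ A.h κ ∧ A.h κ < 2 * 2 ^ i) ∧ Q l κ) * (A.w l * A.w κ))) :=
        ENNReal.tsum_le_tsum fun l => ENNReal.tsum_le_tsum fun κ => h1 l κ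
    _ = (∑' l, ∑' κ : List A.B, ind (κ = []) * (ind (A.fpw N l) * A.w l)) + ∑ i ∈ Finset.range k, ind (2 ^ i ≤ N) *
        ∑' l, ∑' κ, (ind (A.fpw N l ∧ (2 ^ i ≤ A.h κ ∧ A.h κ < 2 * 2 ^ i) ∧ Q l κ) * (A.w l * A.w κ)) := by
        simp only [ENNReal.tsum_add]
        congr 1
        have h2 : ∀ l : List A.B, (∑' κ : List A.B, ∑ i ∈ Finset.range k, ind (2 ^ i ≤ N) *
            (ind (A.fpw N l ∧ (2 ^ i ≤ A.h κ ∧ A.h κ < 2 * 2 ^ i) ∧ Q l κ) * (A.w l * A.w κ))) =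
            ∑ i ∈ Finset.range k, ind (2 ^ i ≤ N) * ∑' κ : List A.B,
            (ind (A.fpw N l ∧ (2 ^ i ≤ A.h κ ∧ A.h κ < 2 * 2 ^ i) ∧ Q l κ) * (A.w l * A.w κ)) := by
          intro l
          rw [Summable.tsum_finsetSum fun i _ => ENNReal.summable]
          exact Finset.sum_congr rfl fun i _ => ENNReal.tsum_mul_left
        simp only [h2]
        rw [Summable.tsum_finsetSum fun i _ => ENNReal.summable]
        exact Finset.sum_congr rfl fun i _ => ENNReal.tsum_mul_left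
    _ ≤ 1 + ∑ i ∈ Finset.range k, 2 * C := by
        refine add_le_add (le_of_eq ?_) (Finset.sum_le_sum fun i _ => ?_)
        · rw [← Alph.tsum_fpw (A := A) N]
          refine tsum_congr fun l => ?_
          rw [tsum_eq_single ([] : List A.B) (fun κ hκ => by rw [ind_false hκ, zero_mul]), ind_true rfl, one_mul]
        · by_cases hi : 2 ^ i ≤ N
          · rw [ind_true hi, one_mul]
            refine (Stp_dy A Q hQ hi).trans ?_
            calc A.U (2 * 2 ^ i) * ∑' l, ∑' κ, ind (A.fpw (2 ^ i) l ∧ A.fpw (2 ^ i) κ ∧ Q l κ) * (A.w l * A.w κ)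
                ≤ 2 * A.U (2 ^ i) * ∑' l, ∑' κ, ind (A.fpw (2 ^ i) l ∧ A.fpw (2 ^ i) κ ∧ Q l κ) * (A.w l * A.w κ) :=
                  mul_le_mul' (Stp_U hA _) le_rfl
              _ = 2 * ((∑' l, ∑' κ, ind (A.fpw (2 ^ i) l ∧ A.fpw (2 ^ i) κ ∧ Q l κ) * (A.w l * A.w κ)) * A.U (2 ^ i)) := by
                  ring
              _ ≤ 2 * C := mul_le_mul' le_rfl (hC _ Nat.one_le_two_pow)
          · rw [ind_false hi, zero_mul]
            exact zero_le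
    _ = 1 + k * (2 * C) := by
        rw [Finset.sum_const, Finset.card_range, nsmul_eq_mul]

/-- The last block of the second word is large, any alphabet. -/
private lemma Stp_big (A : Alph) (Q : List A.B → List A.B → Prop)
    (hQ : ∀ l0 l1 κ0 κ1, Q (l0 ++ l1) (κ0 ++ κ1) → Q l0 κ0) {N X : ℕ} (hN : 1 ≤ N) :
    ∑' l, ∑' κ, ind (A.fpw N l ∧ A.fpw N κ ∧ X + N < A.h κ ∧ Q l κ) * (A.w l * A.w κ) ≤
      (∑' l, ∑' κ, ind (A.fpw N l ∧ A.h κ < N ∧ Q l κ) * (A.w l * A.w κ)) * (A.U X)⁻¹ := by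
  rw [← ENNReal.tsum_mul_right]
  refine ENNReal.tsum_le_tsum fun l => ?_
  rw [← ENNReal.tsum_mul_right]
  calc ∑' κ, ind (A.fpw N l ∧ A.fpw N κ ∧ X + N < A.h κ ∧ Q l κ) * (A.w l * A.w κ)
      = ∑' κ, ind (A.fpw N κ) * (ind (A.fpw N l ∧ X + N < A.h κ ∧ Q l κ) * (A.w l * A.w κ)) := by
        refine tsum_congr fun κ => ?_
        rw [ind_and, ind_and, ind_and, ind_and, ind_and]
        ring
    _ = ∑' κ', ∑' c, ind (A.h κ' < N ∧ N ≤ A.h κ' + A.ht c) *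
          (ind (A.fpw N l ∧ X + N < A.h (κ' ++ [c]) ∧ Q l (κ' ++ [c])) * (A.w l * A.w (κ' ++ [c]))) :=
        tsum_fpw_last A hN _
    _ ≤ _ := by
        refine ENNReal.tsum_le_tsum fun κ' => ?_
        calc ∑' c, ind (A.h κ' < N ∧ N ≤ A.h κ' + A.ht c) *
              (ind (A.fpw N l ∧ X + N < A.h (κ' ++ [c]) ∧ Q l (κ' ++ [c])) * (A.w l * A.w (κ' ++ [c])))
            ≤ ∑' c, ind (A.fpw N l ∧ A.h κ' < N ∧ Q l κ') * (A.w l * A.w κ') * (ind (X < A.ht c) * A.wt c) := by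
              refine ENNReal.tsum_le_tsum fun c => ?_
              rw [A.w_append, A.w_cons, A.w_nil, mul_one, A.h_append, A.h_cons, A.h_nil, add_zero, ← mul_assoc, ← ind_and]
              calc ind ((A.h κ' < N ∧ N ≤ A.h κ' + A.ht c) ∧ A.fpw N l ∧ X + N < A.h κ' + A.ht c ∧ Q l (κ' ++ [c])) *
                    (A.w l * (A.w κ' * A.wt c))
                  ≤ ind ((A.fpw N l ∧ A.h κ' < N ∧ Q l κ') ∧ X < A.ht c) * (A.w l * (A.w κ' * A.wt c)) := by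
                    refine mul_le_mul' (ind_mono fun h => ⟨⟨h.2.1, h.1.1, hQ l [] κ' [c] ?_⟩, ?_⟩) le_rfl
                    · rw [List.append_nil]
                      exact h.2.2.2
                    · have h1 := h.1.1
                      have h2 := h.2.2.1
                      omega
                _ = _ := by
                    rw [ind_and]
                    ring
          _ = ind (A.fpw N l ∧ A.h κ' < N ∧ Q l κ') * (A.w l * A.w κ') * A.Lam X := by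
              rw [ENNReal.tsum_mul_left]
              rfl
          _ ≤ _ := mul_le_mul' le_rfl (A.Lam_le_div X)

private lemma Stp_StB {N : ℕ} (hN : 1 ≤ N) {l : List Blk} (h : hsI.toAlph.fpw N l) : StB N l := by
  obtain ⟨h1, h2⟩ := h
  refine ⟨h1, ?_⟩
  rcases List.eq_nil_or_concat l with rfl | ⟨l0, c, rfl⟩
  · change 0 < N
    exact hN
  · rw [List.concat_eq_append] at h2 ⊢
    rw [List.dropLast_concat]
    exact h2 l0 c [] rfl

private lemma Stp_anti : Antitone hsI.b := hs_anti 0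

theorem st_pb (hfa : ∃ K : ℝ≥0∞, K ≠ ∞ ∧ ∀ i, hsI.fa i * hsI.U i ≤ K) :
    ∃ C : ℕ, ∀ N : ℕ, 1 ≤ N →
    (∑' l : List Blk, ∑' κ : List Blk, ind (hsI.toAlph.fpw N l ∧ hsI.toAlph.fpw N κ ∧ QB l κ) * (wj l * wj κ)) * hsI.U N ≤ C := by
  obtain ⟨K, hK, hfa⟩ := hfa
  have hx : xE⁻¹ ≠ ∞ := ENNReal.inv_ne_top.2 xE_ne.1
  have hfin : 2 * (xE⁻¹) ^ 2 * (2 * K) ≠ ∞ :=
    ENNReal.mul_ne_top (ENNReal.mul_ne_top (by norm_num) (ENNReal.pow_ne_top hx)) (ENNReal.mul_ne_top (by norm_num) hK)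
  obtain ⟨C, hC⟩ := ENNReal.exists_nat_gt hfin
  refine ⟨C, fun N hN => le_trans ?_ hC.le⟩
  obtain ⟨M, rfl⟩ : ∃ M, N = M + 1 := ⟨N - 1, by omega⟩
  have h1 : (∑' l : List Blk, ∑' κ : List Blk, ind (hsI.toAlph.fpw (M + 1) l ∧ hsI.toAlph.fpw (M + 1) κ ∧ QB l κ) * (wj l * wj κ)) ≤
      2 * (xE⁻¹) ^ 2 * hsI.fa M := by
    refine le_trans ?_ (pb_fa hN)
    unfold PB
    exact ENNReal.tsum_le_tsum fun l => ENNReal.tsum_le_tsum fun κ =>
      mul_le_mul' (ind_mono fun h => ⟨Stp_StB hN h.1, Stp_StB hN h.2.1, h.2.2⟩) le_rfl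
  have h2 : hsI.U (M + 1) ≤ 2 * hsI.U M := by
    refine (hsI.toAlph.U_succ_le M).trans ?_
    rw [two_mul]
    exact add_le_add le_rfl (hsI.toAlph.one_le_U M)
  calc _ ≤ 2 * (xE⁻¹) ^ 2 * hsI.fa M * (2 * hsI.U M) := mul_le_mul' h1 h2
    _ = 2 * (xE⁻¹) ^ 2 * (2 * (hsI.fa M * hsI.U M)) := by ring
    _ ≤ 2 * (xE⁻¹) ^ 2 * (2 * K) := mul_le_mul' le_rfl (mul_le_mul' le_rfl (hfa M))

theorem st_mid (hfa : ∃ K : ℝ≥0∞, K ≠ ∞ ∧ ∀ i, hsI.fa i * hsI.U i ≤ K) :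
    ∃ C : ℕ, ∀ k N : ℕ, 1 ≤ N → N ≤ 2 ^ k →
    ∑' l : List Blk, ∑' κ : List Blk, ind (hsI.toAlph.fpw N l ∧ hj κ < N ∧ QB l κ) * (wj l * wj κ) ≤ C * (k + 1) := by
  obtain ⟨C, hC⟩ := st_pb hfa
  refine ⟨2 * C + 1, fun k N _ hN => ?_⟩
  refine (Stp_mid hsI.toAlph Stp_anti QB (fun _ _ _ _ h => QB_pre h) (C := (C : ℝ≥0∞)) hC hN).trans ?_
  have h1 : (1 + k * (2 * C) : ℕ) ≤ (2 * C + 1) * (k + 1) := by nlinarith
  exact_mod_cast h1

theorem st_big (hfa : ∃ K : ℝ≥0∞, K ≠ ∞ ∧ ∀ i, hsI.fa i * hsI.U i ≤ K) :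
    ∃ C : ℕ, ∀ k N X : ℕ, 1 ≤ N → N ≤ 2 ^ k →
    ∑' l : List Blk, ∑' κ : List Blk, ind (hsI.toAlph.fpw N l ∧ hsI.toAlph.fpw N κ ∧ X + N < hj κ ∧ QB l κ) * (wj l * wj κ) ≤
      C * (k + 1) * (hsI.U X)⁻¹ := by
  obtain ⟨C, hC⟩ := st_mid hfa
  refine ⟨C, fun k N X h1 hN => ?_⟩
  refine (Stp_big hsI.toAlph QB (fun _ _ _ _ h => QB_pre h) h1).trans ?_
  exact mul_le_mul' (hC k N h1 hN) le_rfl

end Pool.Agent.EVN
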