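import Pool.Agent.EVN.Stmt
import Pool.Agent.EVN.W.Stp
import Pool.Agent.EVN.W.Conv

/-!
Project EVN, block W: assembly.
-/

namespace Pool.Agent.EVN

open Pool.Agent.Hhelper14.SAW Pool.Agent.HHP Pool.Agent.HEP Pool.Agent.PLY.G Pool.Agent.BEX.F
open scoped ENNReal

/-- Pairs of stopped words. -/
noncomputable def pr (r0 : ℕ) (l κ : List Blk) : ℝ≥0∞ :=
  ind (hsI.toAlph.fpw r0 l ∧ hsI.toAlph.fpw r0 κ ∧ QB l κ) * (wj l * wj κ)

lemma wj_append' (l m : List Blk) : wj (l ++ m) = wj l * wj m := hsI.toAlph.w_append l m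

lemma hj_append' (l m : List Blk) : hj (l ++ m) = hj l + hj m := hsI.toAlph.h_append l m

/-- Trivial bound. -/
lemma WW_triv (𝓛 : Law) (L s D : ℕ) : WW 𝓛 L s D ≤ ak 𝓛 L D := by
  have h1 : ∀ l κ : List Blk, ind (hj l = s ∧ hj κ = D ∧ ln κ ≤ L ∧ QB l κ) * (wj l * wj κ * er 𝓛 κ) ≤
      (ind (hj l = s) * wj l) * (ind (hj κ = D ∧ ln κ ≤ L) * (wj κ * er 𝓛 κ)) := by
    intro l κ
    by_cases h : hj l = s ∧ hj κ = D ∧ ln κ ≤ L ∧ QB l κ
    · rw [ind_true h, ind_true h.1, ind_true ⟨h.2.1, h.2.2.1⟩]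
      apply le_of_eq
      ring
    · rw [ind_false h, zero_mul]
      exact zero_le
  unfold WW
  calc _ ≤ ∑' l : List Blk, ∑' κ : List Blk, (ind (hj l = s) * wj l) *
        (ind (hj κ = D ∧ ln κ ≤ L) * (wj κ * er 𝓛 κ)) :=
        ENNReal.tsum_le_tsum fun l => ENNReal.tsum_le_tsum fun κ => h1 l κ
    _ = (∑' l : List Blk, ind (hj l = s) * wj l) * ak 𝓛 L D := by
        rw [← sum_er 𝓛 L D, ← ENNReal.tsum_mul_right]
        exact tsum_congr fun l => ENNReal.tsum_mul_left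
    _ ≤ 1 * ak 𝓛 L D := mul_le_mul' (hsI.toAlph.b_le_one s) le_rfl
    _ = ak 𝓛 L D := one_mul _

lemma fpB (N : ℕ) (F : List Blk → ℝ≥0∞) : ∑' l : List Blk, ind (N ≤ hj l) * F l =
    ∑' l0 : List Blk, ind (hsI.toAlph.fpw N l0) * ∑' l1 : List Blk, F (l0 ++ l1) :=
  tsum_fp hsI.toAlph N F

/-- Cutting at the first renewals. -/
lemma WW_cut (𝓛 : Law) {α : ℕ → ℝ≥0∞} {L : ℕ} (hα : ∀ k, ak 𝓛 L k ≤ α k) {r0 s D : ℕ} (hs : r0 ≤ s) (hD : r0 ≤ D) :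
    WW 𝓛 L s D ≤ ∑' l0 : List Blk, ∑' κ0 : List Blk, pr r0 l0 κ0 *
      (if hj l0 ≤ s ∧ hj κ0 ≤ D then hsI.b (s - hj l0) * α (D - hj κ0) else 0) := by
  set G : List Blk → List Blk → ℝ≥0∞ := fun l κ =>
    ind (hj l = s ∧ hj κ = D ∧ ln κ ≤ L ∧ QB l κ) * (wj l * wj κ * er 𝓛 κ) with hG
  have h1 : WW 𝓛 L s D = ∑' l : List Blk, ind (r0 ≤ hj l) * ∑' κ : List Blk, ind (r0 ≤ hj κ) * G l κ := by
    unfold WW
    refine tsum_congr fun l => ?_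
    by_cases hl : hj l = s
    · rw [ind_true (show r0 ≤ hj l by rw [hl]; exact hs), one_mul]
      refine tsum_congr fun κ => ?_
      by_cases hk : hj κ = D
      · rw [ind_true (show r0 ≤ hj κ by rw [hk]; exact hD), one_mul]
      · have : ¬ (hj l = s ∧ hj κ = D ∧ ln κ ≤ L ∧ QB l κ) := fun h => hk h.2.1
        simp only [hG]
        rw [ind_false this, zero_mul, mul_zero]
    · have h0 : ∀ κ, G l κ = 0 := fun κ => by
        simp only [hG]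
        rw [ind_false (fun h => hl h.1), zero_mul]
      have h0' : ∀ κ : List Blk, ind (hj l = s ∧ hj κ = D ∧ ln κ ≤ L ∧ QB l κ) * (wj l * wj κ * er 𝓛 κ) = 0 := h0
      simp only [h0, h0', mul_zero, tsum_zero]
  rw [h1, fpB r0 (fun l => ∑' κ : List Blk, ind (r0 ≤ hj κ) * G l κ)]
  refine ENNReal.tsum_le_tsum fun l0 => ?_
  by_cases hl0 : hsI.toAlph.fpw r0 l0
  swap
  · rw [ind_false hl0, zero_mul]
    exact zero_le
  rw [ind_true hl0, one_mul]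
  have h2 : ∀ l1 : List Blk, ∑' κ : List Blk, ind (r0 ≤ hj κ) * G (l0 ++ l1) κ =
      ∑' κ0 : List Blk, ind (hsI.toAlph.fpw r0 κ0) * ∑' κ1 : List Blk, G (l0 ++ l1) (κ0 ++ κ1) :=
    fun l1 => fpB r0 (G (l0 ++ l1))
  refine le_trans (le_of_eq ((tsum_congr h2).trans ENNReal.tsum_comm)) ?_
  refine ENNReal.tsum_le_tsum fun κ0 => ?_
  by_cases hk0 : hsI.toAlph.fpw r0 κ0
  swap
  · simp only [ind_false hk0, zero_mul, tsum_zero]
    exact zero_le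
  simp only [ind_true hk0, one_mul]
  by_cases hQ : QB l0 κ0
  swap
  · have h0 : ∀ l1 κ1 : List Blk, G (l0 ++ l1) (κ0 ++ κ1) = 0 := fun l1 κ1 => by
      simp only [hG]
      rw [ind_false (fun h => hQ (QB_pre h.2.2.2)), zero_mul]
    simp only [h0, tsum_zero]
    exact zero_le
  have hpr : pr r0 l0 κ0 = wj l0 * wj κ0 := by
    unfold pr
    rw [ind_true ⟨hl0, hk0, hQ⟩, one_mul]
  rw [hpr]
  by_cases hle : hj l0 ≤ s ∧ hj κ0 ≤ D
  swap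
  · have h0 : ∀ l1 κ1 : List Blk, G (l0 ++ l1) (κ0 ++ κ1) = 0 := fun l1 κ1 => by
      simp only [hG]
      rw [ind_false, zero_mul]
      rintro ⟨h3, h4, -, -⟩
      rw [hj_append'] at h3 h4
      exact hle ⟨by omega, by omega⟩
    simp only [h0, tsum_zero]
    exact zero_le
  rw [if_pos hle]
  have h3 : ∀ l1 κ1 : List Blk, G (l0 ++ l1) (κ0 ++ κ1) ≤ wj l0 * wj κ0 *
      ((ind (hj l1 = s - hj l0) * wj l1) * (ind (hj κ1 = D - hj κ0 ∧ ln κ1 ≤ L) * (wj κ1 * er 𝓛 κ1))) := by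
    intro l1 κ1
    simp only [hG]
    by_cases h : hj (l0 ++ l1) = s ∧ hj (κ0 ++ κ1) = D ∧ ln (κ0 ++ κ1) ≤ L ∧ QB (l0 ++ l1) (κ0 ++ κ1)
    · have e1 : hj l1 = s - hj l0 := by have := h.1; rw [hj_append'] at this; omega
      have e2 : hj κ1 = D - hj κ0 := by have := h.2.1; rw [hj_append'] at this; omega
      have e3 : ln κ1 ≤ L := by have := h.2.2.1; rw [ln_append] at this; omega
      rw [ind_true h, ind_true e1, ind_true ⟨e2, e3⟩, wj_append', wj_append']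
      calc 1 * (wj l0 * wj l1 * (wj κ0 * wj κ1) * er 𝓛 (κ0 ++ κ1))
          ≤ 1 * (wj l0 * wj l1 * (wj κ0 * wj κ1) * er 𝓛 κ1) := by
            gcongr
            exact er_append 𝓛 κ0 κ1
        _ = _ := by ring
    · rw [ind_false h, zero_mul]
      exact zero_le
  calc ∑' l1 : List Blk, ∑' κ1 : List Blk, G (l0 ++ l1) (κ0 ++ κ1)
      ≤ ∑' l1 : List Blk, ∑' κ1 : List Blk, wj l0 * wj κ0 *
        ((ind (hj l1 = s - hj l0) * wj l1) * (ind (hj κ1 = D - hj κ0 ∧ ln κ1 ≤ L) * (wj κ1 * er 𝓛 κ1))) :=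
        ENNReal.tsum_le_tsum fun l1 => ENNReal.tsum_le_tsum fun κ1 => h3 l1 κ1
    _ = wj l0 * wj κ0 * ((∑' l1 : List Blk, ind (hj l1 = s - hj l0) * wj l1) * ak 𝓛 L (D - hj κ0)) := by
        rw [← sum_er 𝓛 L (D - hj κ0)]
        simp only [ENNReal.tsum_mul_left]
        rw [ENNReal.tsum_mul_right]
    _ ≤ wj l0 * wj κ0 * (hsI.b (s - hj l0) * α (D - hj κ0)) := by
        gcongr
        · exact le_rfl
        · exact hα _

lemma b_anti : Antitone hsI.b := hs_anti 0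

/-- One dyadic block of values of `s`. -/
lemma dyad (hfa : ∃ K : ℝ≥0∞, K ≠ ∞ ∧ ∀ i, hsI.fa i * hsI.U i ≤ K) : ∃ C : ℕ, ∀ (R L D i : ℕ) (𝓛 : Law) (α : ℕ → ℝ≥0∞), 1 ≤ R → Antitone α → (∀ k, ak 𝓛 L k ≤ α k) →
    R ≤ D → 5 ≤ i → 2 ^ i ≤ 4 * R →
    ∑ s ∈ Finset.Ico (2 ^ i) (min (2 ^ (i + 1)) (4 * R + 1)), WW 𝓛 L s (D + s) ≤
      C * (α (R / 4) + ((Nat.log 2 R + 1 : ℕ) : ℝ≥0∞) * ((hsI.U R)⁻¹ * ∑ y ∈ Finset.range (16 * R + 1), hsI.b y * α y)) := by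
  obtain ⟨C1, h1⟩ := st_pb hfa
  obtain ⟨C2, h2⟩ := st_big hfa
  refine ⟨64 * C1 + 8 * C2, fun R L D i 𝓛 α hR hα hak hRD hi hiR => ?_⟩
  obtain ⟨j, rfl⟩ : ∃ j, i = j + 5 := ⟨i - 5, by omega⟩
  set r0 := 2 ^ j with hr0
  have hpow : 2 ^ (j + 5) = 32 * r0 := by rw [hr0, pow_add]; ring
  have hr1 : 1 ≤ r0 := Nat.one_le_two_pow
  have hr8 : 8 * r0 ≤ R := by rw [hpow] at hiR; omega
  have hjR : j ≤ Nat.log 2 R := by
    apply Nat.le_log_of_pow_le (by norm_num)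
    rw [← hr0]
    omega
  set I := Finset.Ico (2 ^ (j + 5)) (min (2 ^ (j + 5 + 1)) (4 * R + 1)) with hI
  have hIs : ∀ s ∈ I, 32 * r0 ≤ s ∧ s < 64 * r0 ∧ s ≤ 4 * R := by
    intro s hs
    rw [hI, Finset.mem_Ico, lt_min_iff, hpow, pow_succ, hpow] at hs
    omega
  set Θ := ∑ y ∈ Finset.range (16 * R + 1), hsI.b y * α y with hΘ
  have h3 : ∑ s ∈ I, WW 𝓛 L s (D + s) ≤ ∑' l0 : List Blk, ∑' κ0 : List Blk, pr r0 l0 κ0 *
      ∑ s ∈ I, (if hj l0 ≤ s ∧ hj κ0 ≤ D + s then hsI.b (s - hj l0) * α (D + s - hj κ0) else 0) := by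
    calc ∑ s ∈ I, WW 𝓛 L s (D + s) ≤ ∑ s ∈ I, ∑' l0 : List Blk, ∑' κ0 : List Blk, pr r0 l0 κ0 *
          (if hj l0 ≤ s ∧ hj κ0 ≤ D + s then hsI.b (s - hj l0) * α (D + s - hj κ0) else 0) :=
          Finset.sum_le_sum fun s hs => WW_cut 𝓛 hak (by have := hIs s hs; omega) (by have := hIs s hs; omega)
      _ = _ := by
          rw [← Summable.tsum_finsetSum (fun _ _ => ENNReal.summable)]
          refine tsum_congr fun l0 => ?_
          rw [← Summable.tsum_finsetSum (fun _ _ => ENNReal.summable)]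
          refine tsum_congr fun κ0 => ?_
          rw [Finset.mul_sum]
  have h4 : ∀ l0 κ0 : List Blk, pr r0 l0 κ0 *
      ∑ s ∈ I, (if hj l0 ≤ s ∧ hj κ0 ≤ D + s then hsI.b (s - hj l0) * α (D + s - hj κ0) else 0) ≤
      pr r0 l0 κ0 * (hsI.U (64 * r0) * α (R / 4)) +
      ind (hsI.toAlph.fpw r0 l0 ∧ hsI.toAlph.fpw r0 κ0 ∧ R / 4 + r0 < hj κ0 ∧ QB l0 κ0) * (wj l0 * wj κ0) * Θ := by
    intro l0 κ0
    by_cases hp : hsI.toAlph.fpw r0 l0 ∧ hsI.toAlph.fpw r0 κ0 ∧ QB l0 κ0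
    swap
    · have : pr r0 l0 κ0 = 0 := by
        unfold pr
        rw [ind_false hp, zero_mul]
      rw [this, zero_mul]
      exact zero_le
    by_cases hb : R / 4 + r0 < hj κ0
    · refine le_add_left ?_
      have e1 : pr r0 l0 κ0 = ind (hsI.toAlph.fpw r0 l0 ∧ hsI.toAlph.fpw r0 κ0 ∧ R / 4 + r0 < hj κ0 ∧ QB l0 κ0) *
          (wj l0 * wj κ0) := by
        unfold pr
        rw [ind_true hp, ind_true ⟨hp.1, hp.2.1, hb, hp.2.2⟩]
      rw [e1]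
      gcongr
      refine (conv_shift b_anti hα I (hj l0) (hj κ0) D (4 * R) (fun s hs => (hIs s hs).2.2)).trans ?_
      exact Finset.sum_le_sum_of_subset (Finset.range_mono (by omega))
    · refine le_add_right ?_
      gcongr
      calc ∑ s ∈ I, (if hj l0 ≤ s ∧ hj κ0 ≤ D + s then hsI.b (s - hj l0) * α (D + s - hj κ0) else 0)
          ≤ ∑ s ∈ I, (if hj l0 ≤ s then hsI.b (s - hj l0) else 0) * α (R / 4) := by
            refine Finset.sum_le_sum fun s hs => ?_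
            split_ifs with ha hc hc
            · exact mul_le_mul' le_rfl (hα (by omega))
            · exact absurd ha.1 hc
            · exact zero_le
            · rw [zero_mul]
        _ = (∑ s ∈ I, (if hj l0 ≤ s then hsI.b (s - hj l0) else 0)) * α (R / 4) := by
            rw [Finset.sum_mul]
        _ ≤ _ := by
            gcongr
            exact conv_U I (hj l0) (64 * r0) (fun s hs => (hIs s hs).2.1.le)
  have h5 : ∑' l0 : List Blk, ∑' κ0 : List Blk, pr r0 l0 κ0 * (hsI.U (64 * r0) * α (R / 4)) ≤ 64 * C1 * α (R / 4) := by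
    simp only [ENNReal.tsum_mul_right]
    have h6 : (∑' l0 : List Blk, ∑' κ0 : List Blk, pr r0 l0 κ0) * hsI.U r0 ≤ C1 := h1 r0 hr1
    have h7 : hsI.U (64 * r0) ≤ 64 * hsI.U r0 := by
      have := hsI.toAlph.U_mul_nat b_anti 64 r0 (by norm_num)
      exact_mod_cast this
    calc (∑' l0 : List Blk, ∑' κ0 : List Blk, pr r0 l0 κ0) * (hsI.U (64 * r0) * α (R / 4))
        ≤ (∑' l0 : List Blk, ∑' κ0 : List Blk, pr r0 l0 κ0) * ((64 * hsI.U r0) * α (R / 4)) := by gcongr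
      _ = 64 * ((∑' l0 : List Blk, ∑' κ0 : List Blk, pr r0 l0 κ0) * hsI.U r0) * α (R / 4) := by ring
      _ ≤ 64 * C1 * α (R / 4) := by gcongr
  have h8 : ∑' l0 : List Blk, ∑' κ0 : List Blk,
      ind (hsI.toAlph.fpw r0 l0 ∧ hsI.toAlph.fpw r0 κ0 ∧ R / 4 + r0 < hj κ0 ∧ QB l0 κ0) * (wj l0 * wj κ0) * Θ ≤
      8 * C2 * (((Nat.log 2 R + 1 : ℕ) : ℝ≥0∞) * ((hsI.U R)⁻¹ * Θ)) := by
    simp only [ENNReal.tsum_mul_right]
    have h9 := h2 j r0 (R / 4) hr1 le_rfl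
    have h10 : hsI.U R ≤ 8 * hsI.U (R / 4) := by
      have e1 : hsI.U R ≤ hsI.U (4 * (R / 4 + 1)) := hsI.toAlph.U_mono (by omega)
      have e2 : hsI.U (4 * (R / 4 + 1)) ≤ 4 * hsI.U (R / 4 + 1) := by
        have := hsI.toAlph.U_mul_nat b_anti 4 (R / 4 + 1) (by norm_num)
        exact_mod_cast this
      have e3 : hsI.U (R / 4 + 1) ≤ hsI.U (R / 4) + 1 := hsI.toAlph.U_succ_le _
      have e4 : 1 ≤ hsI.U (R / 4) := hsI.toAlph.one_le_U _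
      calc hsI.U R ≤ 4 * (hsI.U (R / 4) + hsI.U (R / 4)) := (e1.trans e2).trans (by gcongr; exact e3.trans (by gcongr))
        _ = 8 * hsI.U (R / 4) := by ring
    have h11 : (hsI.U (R / 4))⁻¹ ≤ 8 * (hsI.U R)⁻¹ := by
      have e1 : (8 * hsI.U (R / 4))⁻¹ ≤ (hsI.U R)⁻¹ := ENNReal.inv_le_inv.2 h10
      rw [ENNReal.mul_inv (Or.inl (by norm_num)) (Or.inl (by norm_num))] at e1
      calc (hsI.U (R / 4))⁻¹ = 8 * ((8 : ℝ≥0∞)⁻¹ * (hsI.U (R / 4))⁻¹) := by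
            rw [← mul_assoc, ENNReal.mul_inv_cancel (by norm_num) (by norm_num), one_mul]
        _ ≤ 8 * (hsI.U R)⁻¹ := by gcongr
    calc _ ≤ C2 * ((j : ℝ≥0∞) + 1) * (hsI.U (R / 4))⁻¹ * Θ := by gcongr
      _ ≤ C2 * ((Nat.log 2 R + 1 : ℕ) : ℝ≥0∞) * (8 * (hsI.U R)⁻¹) * Θ := by
          gcongr
          push_cast
          gcongr
      _ = _ := by ring
  calc ∑ s ∈ I, WW 𝓛 L s (D + s) ≤ _ := h3
    _ ≤ ∑' l0 : List Blk, ∑' κ0 : List Blk, (pr r0 l0 κ0 * (hsI.U (64 * r0) * α (R / 4)) +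
      ind (hsI.toAlph.fpw r0 l0 ∧ hsI.toAlph.fpw r0 κ0 ∧ R / 4 + r0 < hj κ0 ∧ QB l0 κ0) * (wj l0 * wj κ0) * Θ) :=
        ENNReal.tsum_le_tsum fun l0 => ENNReal.tsum_le_tsum fun κ0 => h4 l0 κ0
    _ = (∑' l0 : List Blk, ∑' κ0 : List Blk, pr r0 l0 κ0 * (hsI.U (64 * r0) * α (R / 4))) +
        ∑' l0 : List Blk, ∑' κ0 : List Blk,
      ind (hsI.toAlph.fpw r0 l0 ∧ hsI.toAlph.fpw r0 κ0 ∧ R / 4 + r0 < hj κ0 ∧ QB l0 κ0) * (wj l0 * wj κ0) * Θ := by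
        simp only [ENNReal.tsum_add]
    _ ≤ 64 * C1 * α (R / 4) + 8 * C2 * (((Nat.log 2 R + 1 : ℕ) : ℝ≥0∞) * ((hsI.U R)⁻¹ * Θ)) := add_le_add h5 h8
    _ ≤ (64 * C1 + 8 * C2) * (α (R / 4) + ((Nat.log 2 R + 1 : ℕ) : ℝ≥0∞) * ((hsI.U R)⁻¹ * Θ)) := by
        rw [add_mul, mul_add, mul_add]
        exact add_le_add le_self_add le_add_self
    _ = _ := by push_cast; rfl

lemma sum_biU {ι : Type*} [DecidableEq ι] (s : Finset ℕ) (t : ℕ → Finset ι) (f : ι → ℝ≥0∞) :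
    ∑ x ∈ s.biUnion t, f x ≤ ∑ i ∈ s, ∑ x ∈ t i, f x := by
  induction s using Finset.induction_on with
  | empty => simp
  | insert a s ha ih =>
    rw [Finset.biUnion_insert, Finset.sum_insert ha]
    calc ∑ x ∈ t a ∪ s.biUnion t, f x ≤ ∑ x ∈ t a ∪ s.biUnion t, f x + ∑ x ∈ t a ∩ s.biUnion t, f x := le_self_add
      _ = ∑ x ∈ t a, f x + ∑ x ∈ s.biUnion t, f x := Finset.sum_union_inter
      _ ≤ _ := by gcongr

theorem w_main_of (hfa : ∃ K : ℝ≥0∞, K ≠ ∞ ∧ ∀ i, hsI.fa i * hsI.U i ≤ K) : WMain := by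
  obtain ⟨C, hC⟩ := dyad hfa
  refine ⟨32 + 3 * C, fun R L D 𝓛 α hR hα hak hRD hD8 => ?_⟩
  set Θ := ∑ y ∈ Finset.range (16 * R + 1), hsI.b y * α y with hΘ
  set B := α (R / 4) + ((Nat.log 2 R + 1 : ℕ) : ℝ≥0∞) * ((hsI.U R)⁻¹ * Θ) with hB
  set m := Nat.log 2 R with hm
  -- the range is covered by `[0, 32)` and the dyadic blocks `5 ≤ i ≤ m + 2`
  have hcov : Finset.range (4 * R + 1) ⊆ Finset.range 32 ∪
      (Finset.Icc 5 (m + 2)).biUnion fun i => Finset.Ico (2 ^ i) (min (2 ^ (i + 1)) (4 * R + 1)) := by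
    intro s hs
    rw [Finset.mem_range] at hs
    rw [Finset.mem_union, Finset.mem_range, Finset.mem_biUnion]
    by_cases h32 : s < 32
    · exact Or.inl h32
    · right
      refine ⟨Nat.log 2 s, ?_, ?_⟩
      · rw [Finset.mem_Icc]
        constructor
        · exact Nat.le_log_of_pow_le (by norm_num) (by omega)
        · have h1 : Nat.log 2 s ≤ Nat.log 2 (4 * R) := Nat.log_mono_right (by omega)
          have h2 : Nat.log 2 (4 * R) = m + 2 := by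
            have e : 4 * R = R * 2 * 2 := by ring
            rw [e, Nat.log_mul_base (by norm_num) (by omega), Nat.log_mul_base (by norm_num) (by omega)]
          omega
      · rw [Finset.mem_Ico, lt_min_iff]
        exact ⟨Nat.pow_log_le_self 2 (by omega), Nat.lt_pow_succ_log_self (by norm_num) s, hs⟩
  have h1 : ∑ s ∈ Finset.range 32, WW 𝓛 L s (D + s) ≤ 32 * α (R / 4) := by
    calc ∑ s ∈ Finset.range 32, WW 𝓛 L s (D + s) ≤ ∑ _s ∈ Finset.range 32, α (R / 4) :=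
          Finset.sum_le_sum fun s _ => ((WW_triv 𝓛 L s (D + s)).trans (hak _)).trans (hα (by omega))
      _ = 32 * α (R / 4) := by simp
  have h2 : ∀ i ∈ Finset.Icc 5 (m + 2),
      ∑ s ∈ Finset.Ico (2 ^ i) (min (2 ^ (i + 1)) (4 * R + 1)), WW 𝓛 L s (D + s) ≤ C * B := by
    intro i hi
    rw [Finset.mem_Icc] at hi
    refine hC R L D i 𝓛 α hR hα hak hRD hi.1 ?_
    calc 2 ^ i ≤ 2 ^ (m + 2) := Nat.pow_le_pow_right (by norm_num) hi.2
      _ = 4 * 2 ^ m := by rw [pow_add]; ring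
      _ ≤ 4 * R := by
          have := Nat.pow_log_le_self 2 (show R ≠ 0 by omega)
          rw [← hm] at this
          omega
  have hcard : ((Finset.Icc 5 (m + 2)).card : ℝ≥0∞) ≤ 3 * ((m + 1 : ℕ) : ℝ≥0∞) := by
    rw [Nat.card_Icc]
    have : m + 2 + 1 - 5 ≤ 3 * (m + 1) := by omega
    exact_mod_cast this
  have hone : (1 : ℝ≥0∞) ≤ ((m + 1 : ℕ) : ℝ≥0∞) := by
    exact_mod_cast (show 1 ≤ m + 1 by omega)
  calc ∑ s ∈ Finset.range (4 * R + 1), WW 𝓛 L s (D + s)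
      ≤ ∑ s ∈ Finset.range 32 ∪
      (Finset.Icc 5 (m + 2)).biUnion fun i => Finset.Ico (2 ^ i) (min (2 ^ (i + 1)) (4 * R + 1)), WW 𝓛 L s (D + s) :=
        Finset.sum_le_sum_of_subset hcov
    _ ≤ (∑ s ∈ Finset.range 32, WW 𝓛 L s (D + s)) +
      ∑ s ∈ (Finset.Icc 5 (m + 2)).biUnion fun i => Finset.Ico (2 ^ i) (min (2 ^ (i + 1)) (4 * R + 1)), WW 𝓛 L s (D + s) := by
        rw [← Finset.sum_union_inter]
        exact le_self_add
    _ ≤ 32 * α (R / 4) + ∑ i ∈ Finset.Icc 5 (m + 2), ∑ s ∈ Finset.Ico (2 ^ i) (min (2 ^ (i + 1)) (4 * R + 1)),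
          WW 𝓛 L s (D + s) := by
        refine add_le_add h1 ?_
        exact sum_biU _ _ _
    _ ≤ 32 * α (R / 4) + ∑ _i ∈ Finset.Icc 5 (m + 2), C * B := by
        gcongr with i hi
        exact h2 i hi
    _ = 32 * α (R / 4) + ((Finset.Icc 5 (m + 2)).card : ℝ≥0∞) * (C * B) := by
        rw [Finset.sum_const, nsmul_eq_mul]
    _ ≤ 32 * α (R / 4) + 3 * ((m + 1 : ℕ) : ℝ≥0∞) * (C * B) := by gcongr
    _ ≤ 32 * (((m + 1 : ℕ) : ℝ≥0∞) ^ 2 * (α (R / 4) + (hsI.U R)⁻¹ * Θ)) +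
        3 * C * (((m + 1 : ℕ) : ℝ≥0∞) ^ 2 * (α (R / 4) + (hsI.U R)⁻¹ * Θ)) := by
        have e1 : α (R / 4) ≤ ((m + 1 : ℕ) : ℝ≥0∞) ^ 2 * (α (R / 4) + (hsI.U R)⁻¹ * Θ) := by
          calc α (R / 4) = 1 * α (R / 4) := (one_mul _).symm
            _ ≤ ((m + 1 : ℕ) : ℝ≥0∞) ^ 2 * (α (R / 4) + (hsI.U R)⁻¹ * Θ) := by
                refine mul_le_mul' ?_ le_self_add
                exact one_le_pow₀ hone
        have e2 : B ≤ ((m + 1 : ℕ) : ℝ≥0∞) * (α (R / 4) + (hsI.U R)⁻¹ * Θ) := by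
          rw [hB, mul_add]
          refine add_le_add ?_ le_rfl
          calc α (R / 4) = 1 * α (R / 4) := (one_mul _).symm
            _ ≤ _ := mul_le_mul' hone le_rfl
        refine add_le_add (by gcongr) ?_
        calc 3 * ((m + 1 : ℕ) : ℝ≥0∞) * (C * B)
            ≤ 3 * ((m + 1 : ℕ) : ℝ≥0∞) * (C * (((m + 1 : ℕ) : ℝ≥0∞) * (α (R / 4) + (hsI.U R)⁻¹ * Θ))) := by gcongr
          _ = _ := by ring
    _ = ((32 + 3 * C : ℕ) : ℝ≥0∞) * ((m + 1 : ℕ) : ℝ≥0∞) ^ 2 * (α (R / 4) + (hsI.U R)⁻¹ * Θ) := by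
        push_cast
        ring

end Pool.Agent.EVN
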