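import Pool.Agent.EVN.Defs
import Pool.Agent.EVN.W.Fp
import Pool.Agent.EVN.W.Er

/-!
Project EVN, block W: `st_big` from `st_mid`.
-/

namespace Pool.Agent.EVN

open Pool.Agent.Hhelper14.SAW Pool.Agent.HHP Pool.Agent.HEP Pool.Agent.PLY.G Pool.Agent.BEX.F
open scoped ENNReal

private lemma SB_last {N : ℕ} (hN : 1 ≤ N) (F : List Blk → ℝ≥0∞) :
    ∑' l : List Blk, ind (hsI.toAlph.fpw N l) * F l =
      ∑' l' : List Blk, ∑' c : Blk, ind (hj l' < N ∧ N ≤ hj l' + htw c.1) * F (l' ++ [c]) :=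
  tsum_fpw_last hsI.toAlph hN F

private lemma SB_hj (l m : List Blk) : hj (l ++ m) = hj l + hj m := hsI.toAlph.h_append l m

private lemma SB_wj (l m : List Blk) : wj (l ++ m) = wj l * wj m := hsI.toAlph.w_append l m

private lemma SB_Lam (X : ℕ) : ∑' c : Blk, ind (X < htw c.1) * wj [c] ≤ (hsI.U X)⁻¹ := by
  refine le_trans (le_of_eq ?_) (hsI.toAlph.Lam_le_div X)
  refine tsum_congr fun c => ?_
  congr 1
  exact hsI.toAlph.w_cons c [] |>.trans (mul_one _)

theorem st_big_of {C : ℕ} (hmid : ∀ k N : ℕ, 1 ≤ N → N ≤ 2 ^ k →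
    ∑' l : List Blk, ∑' κ : List Blk, ind (hsI.toAlph.fpw N l ∧ hj κ < N ∧ QB l κ) * (wj l * wj κ) ≤ C * (k + 1))
    (k N X : ℕ) (hN : 1 ≤ N) (hk : N ≤ 2 ^ k) :
    ∑' l : List Blk, ∑' κ : List Blk, ind (hsI.toAlph.fpw N l ∧ hsI.toAlph.fpw N κ ∧ X + N < hj κ ∧ QB l κ) * (wj l * wj κ) ≤
      C * (k + 1) * (hsI.U X)⁻¹ := by
  have h1 : ∀ l : List Blk,
      ∑' κ : List Blk, ind (hsI.toAlph.fpw N l ∧ hsI.toAlph.fpw N κ ∧ X + N < hj κ ∧ QB l κ) * (wj l * wj κ) ≤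
      ∑' κ : List Blk, ind (hsI.toAlph.fpw N l ∧ hj κ < N ∧ QB l κ) * (wj l * wj κ) * (hsI.U X)⁻¹ := by
    intro l
    have e1 : ∀ κ : List Blk, ind (hsI.toAlph.fpw N l ∧ hsI.toAlph.fpw N κ ∧ X + N < hj κ ∧ QB l κ) * (wj l * wj κ) =
        ind (hsI.toAlph.fpw N κ) * (ind (hsI.toAlph.fpw N l ∧ X + N < hj κ ∧ QB l κ) * (wj l * wj κ)) := by
      intro κ
      by_cases h : hsI.toAlph.fpw N κ
      · rw [ind_true h, one_mul]
        congr 1
        exact ind_congr ⟨fun h1 => ⟨h1.1, h1.2.2⟩, fun h1 => ⟨h1.1, h, h1.2⟩⟩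
      · rw [ind_false h, zero_mul, ind_false (fun h1 => h h1.2.1), zero_mul]
    rw [tsum_congr e1, SB_last hN]
    refine ENNReal.tsum_le_tsum fun κ => ?_
    calc ∑' c : Blk, ind (hj κ < N ∧ N ≤ hj κ + htw c.1) *
          (ind (hsI.toAlph.fpw N l ∧ X + N < hj (κ ++ [c]) ∧ QB l (κ ++ [c])) * (wj l * wj (κ ++ [c])))
        ≤ ∑' c : Blk, ind (hsI.toAlph.fpw N l ∧ hj κ < N ∧ QB l κ) * (wj l * wj κ) * (ind (X < htw c.1) * wj [c]) := by
          refine ENNReal.tsum_le_tsum fun c => ?_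
          by_cases h : (hj κ < N ∧ N ≤ hj κ + htw c.1) ∧ (hsI.toAlph.fpw N l ∧ X + N < hj (κ ++ [c]) ∧ QB l (κ ++ [c]))
          · have e2 : hj (κ ++ [c]) = hj κ + htw c.1 := by
              rw [SB_hj]
              rfl
            have e3 : X < htw c.1 := by
              have h2 := h.2.2.1
              have h3 := h.1.1
              rw [e2] at h2
              omega
            have e4 : QB l κ := by
              have h2 := h.2.2.2
              have h3 : QB (l ++ []) (κ ++ [c]) := by rw [List.append_nil]; exact h2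
              exact QB_pre h3
            rw [ind_true h.1, ind_true h.2, ind_true ⟨h.2.1, h.1.1, e4⟩, ind_true e3, SB_wj]
            apply le_of_eq
            ring
          · by_cases h5 : hj κ < N ∧ N ≤ hj κ + htw c.1
            · rw [ind_false (fun h6 => h ⟨h5, h6⟩), zero_mul, mul_zero]
              exact zero_le
            · rw [ind_false h5, zero_mul]
              exact zero_le
      _ = ind (hsI.toAlph.fpw N l ∧ hj κ < N ∧ QB l κ) * (wj l * wj κ) * ∑' c : Blk, ind (X < htw c.1) * wj [c] :=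
          ENNReal.tsum_mul_left
      _ ≤ _ := mul_le_mul' le_rfl (SB_Lam X)
  calc _ ≤ ∑' l : List Blk, ∑' κ : List Blk, ind (hsI.toAlph.fpw N l ∧ hj κ < N ∧ QB l κ) * (wj l * wj κ) * (hsI.U X)⁻¹ :=
        ENNReal.tsum_le_tsum h1
    _ = (∑' l : List Blk, ∑' κ : List Blk, ind (hsI.toAlph.fpw N l ∧ hj κ < N ∧ QB l κ) * (wj l * wj κ)) * (hsI.U X)⁻¹ := by
        simp only [ENNReal.tsum_mul_right]
    _ ≤ C * (k + 1) * (hsI.U X)⁻¹ := mul_le_mul' (hmid k N hN hk) le_rfl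

end Pool.Agent.EVN
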